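import Mathlib

set_option autoImplicit false

namespace Pool.Agent.Results.MP_c044fe_co.FewCopies

open Matrix

/-- `nG`: the disjoint union of `n` copies of `G`. -/
def copies (n : ℕ) {W : Type} (G : SimpleGraph W) : SimpleGraph (Fin n × W) where
  Adj x y := x.1 = y.1 ∧ G.Adj x.2 y.2
  symm := ⟨fun _ _ h => ⟨h.1.symm, h.2.symm⟩⟩
  loopless := ⟨fun x h => G.loopless.irrefl x.2 h.2⟩

/-- `K ⊆ F`: the graph `F` has a (not necessarily induced) subgraph isomorphic to `K`. -/
def Contains {V U : Type} (F : SimpleGraph V) (K : SimpleGraph U) : Prop :=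
  ∃ f : U → V, Function.Injective f ∧ ∀ x y, K.Adj x y → F.Adj (f x) (f y)

/-- `F → K`: every colouring of the edges of `F` with two colours contains a monochromatic copy
of `K`. -/
def Arrow {V U : Type} (F : SimpleGraph V) (K : SimpleGraph U) : Prop :=
  ∀ c : Sym2 V → Bool, ∃ (b : Bool) (f : U → V), Function.Injective f ∧
    ∀ x y, K.Adj x y → F.Adj (f x) (f y) ∧ c s(f x, f y) = b

/-- the set of all `N` with `K_N → K` -/
def RamseySet {U : Type} (K : SimpleGraph U) : Set ℕ :=
  {N | Arrow (⊤ : SimpleGraph (Fin N)) K}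

/-- The Ramsey number `r(K)`, the least `N` with `K_N → K`. -/
noncomputable def ramsey {U : Type} (K : SimpleGraph U) : ℕ := sInf (RamseySet K)

/-! ### Lindsey-type lemma over `F_2` -/

theorem lindsey (d : ℕ) (A B : Finset (Fin d → ZMod 2)) (c : ZMod 2)
    (h : ∀ x ∈ A, ∀ y ∈ B, x ⬝ᵥ y = c) : A.card * B.card ≤ 2 ^ d := by
  classical
  rcases B.eq_empty_or_nonempty with rfl | ⟨y0, hy0⟩
  · simp
  let Bf : LinearMap.BilinForm (ZMod 2) (Fin d → ZMod 2) :=
    Matrix.toBilin' (1 : Matrix (Fin d) (Fin d) (ZMod 2))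
  have hBf : ∀ x y, Bf x y = x ⬝ᵥ y := by
    intro x y
    simp [Bf, Matrix.toBilin'_apply']
  have hnd : Bf.Nondegenerate := by
    apply LinearMap.BilinForm.nondegenerate_toBilin'_of_det_ne_zero'
    simp
  let W : Submodule (ZMod 2) (Fin d → ZMod 2) :=
    Submodule.span (ZMod 2) (A : Set (Fin d → ZMod 2))
  let W' := Bf.orthogonal W
  have hsub : ∀ y ∈ B, y - y0 ∈ W' := by
    intro y hy
    rw [LinearMap.BilinForm.mem_orthogonal_iff]
    intro w hw
    show Bf w (y - y0) = 0
    induction hw using Submodule.span_induction with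
    | mem x hx => rw [hBf, dotProduct_sub, h x hx y hy, h x hx y0 hy0, sub_self]
    | zero => simp
    | add a b _ _ ha hb => rw [map_add, LinearMap.add_apply, ha, hb, add_zero]
    | smul r a _ ha => rw [map_smul, LinearMap.smul_apply, ha, smul_zero]
  have hfr := LinearMap.BilinForm.finrank_orthogonal hnd W
  have hle : Module.finrank (ZMod 2) W ≤ Module.finrank (ZMod 2) (Fin d → ZMod 2) :=
    Submodule.finrank_le W
  have hV : Module.finrank (ZMod 2) (Fin d → ZMod 2) = d := by simp
  have hcW : Nat.card W = 2 ^ Module.finrank (ZMod 2) W := by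
    have := Module.natCard_eq_pow_finrank (K := ZMod 2) (V := W)
    simpa using this
  have hcW' : Nat.card W' = 2 ^ Module.finrank (ZMod 2) W' := by
    have := Module.natCard_eq_pow_finrank (K := ZMod 2) (V := W')
    simpa using this
  have hA : A.card ≤ Nat.card W := by
    have := Nat.card_le_card_of_injective
      (fun x : A => (⟨x.1, Submodule.subset_span x.2⟩ : W))
      (fun x y hxy => Subtype.ext (congrArg (fun z : W => z.1) hxy))
    simpa using this
  have hB : B.card ≤ Nat.card W' := by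
    have := Nat.card_le_card_of_injective
      (fun y : B => (⟨y.1 - y0, hsub y.1 y.2⟩ : W'))
      (fun x y hxy => Subtype.ext (sub_left_injective (congrArg (fun z : W' => z.1) hxy)))
    simpa using this
  calc A.card * B.card ≤ Nat.card W * Nat.card W' := Nat.mul_le_mul hA hB
    _ = 2 ^ d := by
      rw [hcW, hcW', ← pow_add]
      congr 1
      have h5 : Module.finrank (ZMod 2) W' =
        Module.finrank (ZMod 2) (Fin d → ZMod 2) - Module.finrank (ZMod 2) W := hfr
      omega

/-- The complete bipartite graph `K_{s,s}` on `Bool × Fin s`. -/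
def Kss (s : ℕ) : SimpleGraph (Bool × Fin s) where
  Adj x y := x.1 ≠ y.1
  symm := ⟨fun _ _ h => h.symm⟩
  loopless := ⟨fun _ h => h rfl⟩

/-- The complete bipartite graph `K_{m,M}` on `Fin m ⊕ Fin M`. -/
def KmM (m M : ℕ) : SimpleGraph (Fin m ⊕ Fin M) where
  Adj x y := x.isLeft ≠ y.isLeft
  symm := ⟨fun _ _ h => h.symm⟩
  loopless := ⟨fun _ h => h rfl⟩

theorem arrow_KmM (s n : ℕ) (hs : 1 ≤ s) (hn : 1 ≤ n) :
    Arrow (KmM (2 * (s * n) - 1) (2 ^ (2 * (s * n) - 1) * (n * s))) (copies n (Kss s)) := by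
  classical
  obtain ⟨m, hm⟩ : ∃ m, m = 2 * (s * n) - 1 := ⟨_, rfl⟩
  rw [← hm]
  intro c
  have hpos : 1 ≤ s * n := Nat.mul_pos hs hn
  let T : Fin (2 ^ m * (n * s)) → (Fin m → Bool) := fun y x => c s(Sum.inl x, Sum.inr y)
  obtain ⟨t, ht⟩ := Fintype.exists_le_card_fiber_of_mul_le_card T (n := n * s) (by simp)
  obtain ⟨b, hb⟩ := Fintype.exists_lt_card_fiber_of_mul_lt_card t (n := s * n - 1) (by
    simp only [Fintype.card_bool, Fintype.card_fin]
    omega)
  have hcardA : Fintype.card (Fin n × Fin s) ≤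
      (Finset.univ.filter fun x => t x = b).card := by
    simp only [Fintype.card_prod, Fintype.card_fin]
    rw [Nat.mul_comm]
    omega
  have hcardB : Fintype.card (Fin n × Fin s) ≤
      (Finset.univ.filter fun x => T x = t).card := by
    simpa using ht
  obtain ⟨eA⟩ := Function.Embedding.nonempty_of_card_le
    (α := Fin n × Fin s) (β := {x // x ∈ (Finset.univ.filter fun x => t x = b)}) (by
      rw [Fintype.card_coe]; exact hcardA)
  obtain ⟨eB⟩ := Function.Embedding.nonempty_of_card_le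
    (α := Fin n × Fin s) (β := {x // x ∈ (Finset.univ.filter fun x => T x = t)}) (by
      rw [Fintype.card_coe]; exact hcardB)
  have hAB : ∀ p q, c s(Sum.inl (eA p).1, Sum.inr (eB q).1) = b := by
    intro p q
    have h1 := (Finset.mem_filter.1 (eA p).2).2
    have h2 := (Finset.mem_filter.1 (eB q).2).2
    have h3 := congrFun h2 (eA p).1
    show T (eB q).1 (eA p).1 = b
    rw [h3, h1]
  refine ⟨b, fun z => if z.2.1 = false then Sum.inl (eA (z.1, z.2.2)).1
    else Sum.inr (eB (z.1, z.2.2)).1, ?_, ?_⟩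
  · rintro ⟨i, u, j⟩ ⟨i', u', j'⟩ h
    cases u <;> cases u' <;> simp only [if_true, Bool.true_eq_false, if_false, Sum.inl.injEq,
      Sum.inr.injEq, reduceCtorEq] at h
    · have := eA.injective (Subtype.ext h)
      simp only [Prod.mk.injEq] at this
      rw [this.1, this.2]
    · have := eB.injective (Subtype.ext h)
      simp only [Prod.mk.injEq] at this
      rw [this.1, this.2]
  · rintro ⟨i, u, j⟩ ⟨i', u', j'⟩ h
    have hne : u ≠ u' := h.2
    cases u <;> cases u'
    · exact absurd rfl hne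
    · refine ⟨?_, ?_⟩
      · simp [KmM]
      · simpa using hAB (i, j) (i', j')
    · refine ⟨?_, ?_⟩
      · simp [KmM]
      · have := hAB (i', j') (i, j)
        rw [Sym2.eq_swap] at this
        simpa using this
    · exact absurd rfl hne

theorem not_contains_KmM (s n M : ℕ) (hs : 1 ≤ s) (hn : 1 ≤ n) :
    ¬ Contains (KmM (2 * (s * n) - 1) M) (copies (2 * n) (Kss s)) := by
  classical
  obtain ⟨m, hm⟩ : ∃ m, m = 2 * (s * n) - 1 := ⟨_, rfl⟩
  rw [← hm]
  rintro ⟨f, hf, hadj⟩
  have hpos : 1 ≤ s * n := Nat.mul_pos hs hn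
  -- in each copy, one side lies entirely in the left part
  have key : ∀ i : Fin (2 * n), ∃ u : Bool, ∀ j : Fin s, ∃ x : Fin m, f (i, u, j) = Sum.inl x := by
    intro i
    by_contra hcon
    push Not at hcon
    obtain ⟨j0, h0⟩ := hcon false
    obtain ⟨j1, h1⟩ := hcon true
    have had : (KmM m M).Adj (f (i, false, j0)) (f (i, true, j1)) :=
      hadj _ _ ⟨rfl, by simp [Kss]⟩
    rcases hx : f (i, false, j0) with x | x
    · exact h0 x hx
    · rcases hy : f (i, true, j1) with y | y
      · exact h1 y hy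
      · rw [hx, hy] at had
        exact had rfl
  choose u hu using key
  choose g hg using hu
  have hinj : Function.Injective (fun p : Fin (2 * n) × Fin s => g p.1 p.2) := by
    rintro ⟨i, j⟩ ⟨i', j'⟩ h
    simp only at h
    have h1 := hg i j
    have h2 := hg i' j'
    rw [h] at h1
    have := hf (h1.trans h2.symm)
    simp only [Prod.mk.injEq] at this
    rw [this.1, this.2.2]
  have := Fintype.card_le_of_injective _ hinj
  simp only [Fintype.card_prod, Fintype.card_fin] at this
  have h2 : 2 * n * s = 2 * (s * n) := by ring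
  omega

theorem arrow_top {V U : Type} [Fintype V] (F : SimpleGraph V) (K : SimpleGraph U)
    (h : Arrow F K) : Fintype.card V ∈ RamseySet K := by
  intro c
  let e := Fintype.equivFin V
  obtain ⟨b, f, hf, hK⟩ := h (fun z => c (Sym2.map e z))
  refine ⟨b, fun x => e (f x), fun x y hxy => hf (e.injective hxy), fun x y hxy => ?_⟩
  have := hK x y hxy
  refine ⟨?_, ?_⟩
  · rw [SimpleGraph.top_adj]
    intro heq
    exact this.1.ne (e.injective heq)
  · simpa using this.2

theorem ramsey_gt (k n : ℕ) (hn : 1 ≤ n) (N : ℕ)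
    (hN : N ∈ RamseySet (copies n (Kss (2 ^ k + 1)))) : 2 ^ (2 * k) < N := by
  classical
  by_contra hcon
  push Not at hcon
  obtain ⟨ι⟩ := Function.Embedding.nonempty_of_card_le (α := Fin N)
    (β := Fin (2 * k) → ZMod 2) (by simpa [ZMod.card] using hcon)
  -- colour by the scalar product
  let c : Sym2 (Fin N) → Bool :=
    Sym2.lift ⟨fun x y => decide (ι x ⬝ᵥ ι y = 0), fun x y => by
      show decide (ι x ⬝ᵥ ι y = 0) = decide (ι y ⬝ᵥ ι x = 0)
      rw [dotProduct_comm]⟩
  obtain ⟨b, f, hf, hK⟩ := hN c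
  have h1 : ∀ j j' : Fin (2 ^ k + 1), ι (f (⟨0, hn⟩, false, j)) ⬝ᵥ ι (f (⟨0, hn⟩, true, j')) =
      (bif b then 0 else 1) := by
    intro j j'
    have h2 := (hK (⟨0, hn⟩, false, j) (⟨0, hn⟩, true, j') ⟨rfl, by simp [Kss]⟩).2
    have h3 : decide (ι (f (⟨0, hn⟩, false, j)) ⬝ᵥ ι (f (⟨0, hn⟩, true, j')) = 0) = b := h2
    generalize ι (f (⟨0, hn⟩, false, j)) ⬝ᵥ ι (f (⟨0, hn⟩, true, j')) = z at h3
    cases b
    · simp only [cond_false]
      have : z ≠ 0 := by simpa using h3
      revert this; revert z; decide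
    · simpa using h3
  let gA : Fin (2 ^ k + 1) → (Fin (2 * k) → ZMod 2) := fun j => ι (f (⟨0, hn⟩, false, j))
  let gB : Fin (2 ^ k + 1) → (Fin (2 * k) → ZMod 2) := fun j => ι (f (⟨0, hn⟩, true, j))
  have hgA : Function.Injective gA := by
    intro x y hxy
    have := hf (ι.injective hxy)
    simpa using this
  have hgB : Function.Injective gB := by
    intro x y hxy
    have := hf (ι.injective hxy)
    simpa using this
  have := lindsey (2 * k) (Finset.univ.image gA) (Finset.univ.image gB) (bif b then 0 else 1) (by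
    intro x hx y hy
    obtain ⟨j, _, rfl⟩ := Finset.mem_image.1 hx
    obtain ⟨j', _, rfl⟩ := Finset.mem_image.1 hy
    exact h1 j j')
  rw [Finset.card_image_of_injective _ hgA, Finset.card_image_of_injective _ hgB] at this
  simp only [Finset.card_univ, Fintype.card_fin] at this
  have h4 : (2 : ℕ) ^ (2 * k) = 2 ^ k * 2 ^ k := by rw [two_mul, pow_add]
  rw [h4] at this
  generalize 2 ^ k = p at this
  nlinarith

/-- For every `n ≥ 1` and every `C` there are finite graphs `G` and `F` with `F → nG` such that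
`F` does not contain `2n` pairwise disjoint copies of `G`, although
`⌊r(nG)/|V(G)|⌋ ≥ max(2n, C)`; in particular `F` does not contain `⌊r(nG)/|V(G)|⌋` pairwise
disjoint copies of `G`. -/
theorem result : ∀ n : ℕ, 1 ≤ n → ∀ C : ℕ,
    ∃ (W : Type) (_ : Fintype W) (G : SimpleGraph W) (V : Type) (_ : Fintype V)
      (F : SimpleGraph V),
      Arrow F (copies n G) ∧
      ¬ Contains F (copies (2 * n) G) ∧
      (RamseySet (copies n G)).Nonempty ∧
      2 * n ≤ ramsey (copies n G) / Fintype.card W ∧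
      C ≤ ramsey (copies n G) / Fintype.card W ∧
      ¬ Contains F (copies (ramsey (copies n G) / Fintype.card W) G) := by
  intro n hn C
  set T := 2 * n + C with hT
  set k := T + 2 with hk
  set s := 2 ^ k + 1 with hs
  have hs1 : 1 ≤ s := Nat.le_add_left 1 _
  have hArrow := arrow_KmM s n hs1 hn
  have hnot := not_contains_KmM s n (2 ^ (2 * (s * n) - 1) * (n * s)) hs1 hn
  have hne : (RamseySet (copies n (Kss s))).Nonempty := ⟨_, arrow_top _ _ hArrow⟩
  have hr : 2 ^ (2 * k) < ramsey (copies n (Kss s)) := ramsey_gt k n hn _ (Nat.sInf_mem hne)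
  have hcard : Fintype.card (Bool × Fin s) = 2 * s := by simp
  have hTr : T ≤ ramsey (copies n (Kss s)) / Fintype.card (Bool × Fin s) := by
    rw [hcard, Nat.le_div_iff_mul_le (by omega)]
    have h1 : (2 : ℕ) ^ (2 * k) = 2 ^ k * 2 ^ k := by rw [two_mul, pow_add]
    have h2 : 4 * T ≤ 2 ^ k := by
      have : T < 2 ^ T := Nat.lt_two_pow_self
      rw [hk, pow_add]; omega
    have h3 : 1 ≤ 2 ^ k := Nat.one_le_two_pow
    calc T * (2 * s) ≤ T * (2 * (2 ^ k + 2 ^ k)) := by
          apply Nat.mul_le_mul_left; omega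
      _ = (4 * T) * 2 ^ k := by ring
      _ ≤ 2 ^ k * 2 ^ k := Nat.mul_le_mul_right _ h2
      _ ≤ _ := by rw [← h1]; exact hr.le
  refine ⟨Bool × Fin s, inferInstance, Kss s, _, inferInstance, KmM _ _, hArrow, hnot, hne,
    by omega, by omega, ?_⟩
  rintro ⟨f, hf, hadj⟩
  apply hnot
  have h2n : 2 * n ≤ ramsey (copies n (Kss s)) / Fintype.card (Bool × Fin s) := by omega
  refine ⟨fun z => f (Fin.castLE h2n z.1, z.2), ?_, ?_⟩
  · rintro ⟨i, x⟩ ⟨i', x'⟩ h
    have := hf h
    simp only [Prod.mk.injEq, Fin.castLE_inj] at this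
    rw [this.1, this.2]
  · rintro ⟨i, x⟩ ⟨i', x'⟩ ⟨h1, h2⟩
    exact hadj _ _ ⟨by simp only at h1; rw [h1], h2⟩

end Pool.Agent.Results.MP_c044fe_co.FewCopies
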